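import Pool.Agent.Y871.LW.Stm
import Pool.Agent.Y843.HS.Win

/-!
# The relative Szemerédi theorem for a family of weights (adapted from `Y843.HS.Lfm`)
-/

set_option autoImplicit false

namespace Pool.Agent.Y239.LW

open Finset
open Pool.Agent.H602R3.DHJ (av av_prod av_const av_mono av_nonneg av_add av_sub av_mul av_sum)
open Pool.Agent.Y727.PSP (rp sl Lf LF LFk S_RS)
open Pool.Agent.Y79.PSP.MK (frm frm_single frm_ne cast_ne)
open Pool.Agent.Y871.LW

variable {α : Type} {N : ℕ}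

theorem lemC [NeZero N] {Ω : Finset α} {ν : α → ZMod N → ℝ} {M : ℕ} {E : ℝ}
    (h : Cor Ω ν M E) (hΩ : Ω.Nonempty) {Y : Type} [AddCommGroup Y] [Fintype Y]
    {I : Type} [Fintype I] (hI : 2 * Fintype.card I ≤ M) (f : I → Y →+ ZMod N)
    (hf : ∀ i j, i ≠ j → Pool.Agent.Y871.LW.Ind (f i) (f j)) (hf0 : ∀ i, ∃ v, f i v ≠ 0) :
    ∑ x ∈ Ω, (av (fun y : Y => ∏ i, ν x (f i y)) - 1) ^ 2 ≤ 3 * E * Ω.card := by
  classical
  have hX' : (0 : ℝ) < Ω.card := by exact_mod_cast hΩ.card_pos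
  have h1 := h Y I (by omega) f hf hf0
  let g : I ⊕ I → Y × Y →+ ZMod N := Sum.elim (fun i => (f i).comp (AddMonoidHom.fst Y Y))
    (fun i => (f i).comp (AddMonoidHom.snd Y Y))
  have hg : ∀ i j, i ≠ j → Pool.Agent.Y871.LW.Ind (g i) (g j) := by
    rintro (i | i) (j | j) hij
    · obtain ⟨⟨v, hv, hv'⟩, w, hw, hw'⟩ := hf i j (fun h => hij (by rw [h]))
      exact ⟨⟨(v, 0), by simpa [g] using hv, by simpa [g] using hv'⟩, (w, 0),
        by simpa [g] using hw, by simpa [g] using hw'⟩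
    · obtain ⟨v, hv⟩ := hf0 i
      obtain ⟨w, hw⟩ := hf0 j
      exact ⟨⟨(v, 0), by simpa [g] using hv, by simp [g]⟩, (0, w), by simp [g],
        by simpa [g] using hw⟩
    · obtain ⟨v, hv⟩ := hf0 i
      obtain ⟨w, hw⟩ := hf0 j
      exact ⟨⟨(0, v), by simpa [g] using hv, by simp [g]⟩, (w, 0), by simp [g],
        by simpa [g] using hw⟩
    · obtain ⟨⟨v, hv, hv'⟩, w, hw, hw'⟩ := hf i j (fun h => hij (by rw [h]))
      exact ⟨⟨(0, v), by simpa [g] using hv, by simpa [g] using hv'⟩, (0, w),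
        by simpa [g] using hw, by simpa [g] using hw'⟩
  have hg0 : ∀ i, ∃ v, g i v ≠ 0 := by
    rintro (i | i)
    · obtain ⟨v, hv⟩ := hf0 i
      exact ⟨(v, 0), by simpa [g] using hv⟩
    · obtain ⟨v, hv⟩ := hf0 i
      exact ⟨(0, v), by simpa [g] using hv⟩
  have h2 := h (Y × Y) (I ⊕ I) (by rw [Fintype.card_sum]; omega) g hg hg0
  have h3 : ∀ x, av (fun y : Y × Y => ∏ i, ν x (g i y)) =
      (av (fun y : Y => ∏ i, ν x (f i y))) ^ 2 := by
    intro x
    rw [av_prod]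
    have h4 : ∀ a b : Y, ∏ i, ν x (g i (a, b)) =
        (∏ i, ν x (f i a)) * ∏ i, ν x (f i b) := by
      intro a b
      rw [Fintype.prod_sum_type]
      rfl
    simp_rw [h4]
    simp_rw [av_mul]
    have h5 : av (fun a : Y => (∏ i, ν x (f i a)) *
        av (fun b : Y => ∏ i, ν x (f i b))) =
        av (fun a : Y => av (fun b : Y => ∏ i, ν x (f i b)) *
          ∏ i, ν x (f i a)) := by
      congr 1
      funext a
      rw [mul_comm]
    rw [h5, av_mul, pow_two]
  simp_rw [h3] at h2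
  set F : α → ℝ := fun x => av (fun y : Y => ∏ i, ν x (f i y)) with hF
  change |(∑ x ∈ Ω, F x) / Ω.card - 1| ≤ _ at h1
  change |(∑ x ∈ Ω, F x ^ 2) / Ω.card - 1| ≤ _ at h2
  change ∑ x ∈ Ω, (F x - 1) ^ 2 ≤ _
  have h6 : ∑ x ∈ Ω, (F x - 1) ^ 2 =
      (((∑ x ∈ Ω, F x ^ 2) / Ω.card - 1) -
        2 * ((∑ x ∈ Ω, F x) / Ω.card - 1)) * Ω.card := by
    have h7 : ∑ x ∈ Ω, (F x - 1) ^ 2 =
        ∑ x ∈ Ω, F x ^ 2 - 2 * ∑ x ∈ Ω, F x + Ω.card := by
      simp_rw [sub_sq]
      rw [sum_add_distrib, sum_sub_distrib, mul_sum]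
      simp only [mul_one, one_pow, sum_const, nsmul_eq_mul]
    rw [h7]
    field_simp
    ring
  rw [h6]
  apply mul_le_mul_of_nonneg_right _ hX'.le
  have h8 := (abs_le.1 h1).1
  have h9 := (abs_le.1 h2).2
  linarith

theorem frm_ind {k : ℕ} (hkN : k ≤ N) (t t' : Fin k × Finset (Fin k)) (ht : t.1 ∉ t.2)
    (ht' : t'.1 ∉ t'.2) (h : t ≠ t') :
    Pool.Agent.Y871.LW.Ind (frm t : (Fin k → ZMod N × ZMod N) →+ ZMod N) (frm t') := by
  by_cases h1 : t.1 = t'.1
  · have h2 : t.2 ≠ t'.2 := fun h' => h (Prod.ext h1 h')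
    have h3 : ∃ i, (i ∈ t.2 ∧ i ∉ t'.2) ∨ (i ∉ t.2 ∧ i ∈ t'.2) := by
      by_contra hc
      push Not at hc
      apply h2
      ext i
      have := hc i
      constructor
      · intro hi
        exact this.1 hi
      · intro hi
        by_contra hi'
        exact this.2 hi' hi
    obtain ⟨i, hi⟩ := h3
    rcases hi with ⟨hi, hi'⟩ | ⟨hi, hi'⟩
    · have hne : i ≠ t.1 := fun h => ht (h ▸ hi)
      refine ⟨⟨Pi.single i (0, 1), ?_, ?_⟩, Pi.single i (1, 0), ?_, ?_⟩
      · rw [frm_single, if_pos hi, mul_one]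
        exact cast_ne hkN hne
      · rw [frm_single, if_neg hi', mul_zero]
      · rw [frm_single, if_pos hi, mul_zero]
      · rw [frm_single, if_neg hi', mul_one]
        exact cast_ne hkN (h1 ▸ hne)
    · have hne : i ≠ t'.1 := fun h => ht' (h ▸ hi')
      refine ⟨⟨Pi.single i (1, 0), ?_, ?_⟩, Pi.single i (0, 1), ?_, ?_⟩
      · rw [frm_single, if_neg hi, mul_one]
        exact cast_ne hkN (h1 ▸ hne)
      · rw [frm_single, if_pos hi', mul_zero]
      · rw [frm_single, if_neg hi, mul_zero]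
      · rw [frm_single, if_pos hi', mul_one]
        exact cast_ne hkN hne
  · refine ⟨⟨Pi.single t'.1 (1, 1), ?_, ?_⟩, Pi.single t.1 (1, 1), ?_, ?_⟩
    · rw [frm_single]
      simp only [ite_self, mul_one]
      exact cast_ne hkN (Ne.symm h1)
    · rw [frm_single]
      simp only [sub_self, zero_mul]
    · rw [frm_single]
      simp only [sub_self, zero_mul]
    · rw [frm_single]
      simp only [ite_self, mul_one]
      exact cast_ne hkN h1

open Classical in
/-- the linear forms condition for most weights of the family -/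
theorem lfm {k : ℕ} (hk : 2 ≤ k) {Ω : Finset α} {ν : α → ZMod N → ℝ} {M : ℕ} {η E : ℝ} [NeZero N]
    [Fact N.Prime] (hkN : k ≤ N) (h : Cor Ω ν M E)
    (hΩ : Ω.Nonempty) (hM : 2 * (k * 2 ^ k) ≤ M) (hη : 0 < η)
    (h1 : 3 * E ≤ η ^ 2) (h2 : 2 ^ (k * 2 ^ k) * (3 * E) ≤ η ^ 3) :
    ∑ x ∈ Ω, |av (ν x) - 1| ≤ η * Ω.card ∧
    ((Ω.filter (fun x => ¬ LFk k N (ν x) η)).card : ℝ) ≤ η * Ω.card := by
  have hX' : (0 : ℝ) < Ω.card := by exact_mod_cast hΩ.card_pos
  have hk1 : 1 ≤ k * 2 ^ k := Nat.mul_pos (by omega) (by positivity)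
  constructor
  · have h3 := lemC h hΩ (I := Unit) (by rw [Fintype.card_unit]; omega)
      (fun _ => AddMonoidHom.id (ZMod N)) (fun i j hij => absurd (Subsingleton.elim i j) hij)
      (fun _ => ⟨1, by simp⟩)
    have h4 : ∀ x, av (fun y : ZMod N => ∏ i : Unit, ν x (AddMonoidHom.id (ZMod N) y)) =
        av (ν x) := by
      intro x
      congr 1
      funext y
      simp
    simp_rw [h4] at h3
    have h5 : ∀ x ∈ Ω, |av (ν x) - 1| ≤
        η / 2 + (av (ν x) - 1) ^ 2 / (2 * η) := by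
      intro x _
      set y := av (ν x) - 1
      have h6 : η / 2 + y ^ 2 / (2 * η) = (η ^ 2 + y ^ 2) / (2 * η) := by
        field_simp
      rw [h6, le_div_iff₀ (by positivity)]
      nlinarith [sq_nonneg (|y| - η), sq_abs y]
    refine (sum_le_sum h5).trans ?_
    rw [sum_add_distrib, sum_const, nsmul_eq_mul, ← sum_div]
    have h6 : (∑ x ∈ Ω, (av (ν x) - 1) ^ 2) / (2 * η) ≤ η / 2 * Ω.card := by
      rw [div_le_iff₀ (by positivity)]
      calc ∑ x ∈ Ω, (av (ν x) - 1) ^ 2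
          ≤ 3 * E * Ω.card := h3
        _ ≤ η ^ 2 * Ω.card := mul_le_mul_of_nonneg_right h1 hX'.le
        _ = η / 2 * Ω.card * (2 * η) := by ring
    linarith
  · set TT : Finset (Finset (Fin k × Finset (Fin k))) :=
      univ.filter (fun T => ∀ t ∈ T, t.1 ∉ t.2) with hTT
    set bad : Finset (Fin k × Finset (Fin k)) → Finset α := fun T =>
      Ω.filter (fun x => η < |av (fun y : Fin k → ZMod N × ZMod N =>
        ∏ t ∈ T, ν x (Lf t.1 (sl t.2 y))) - 1|) with hbad
    have hsub : Ω.filter (fun x => ¬ LFk k N (ν x) η) ⊆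
        TT.biUnion bad := by
      intro x hx
      rw [mem_filter] at hx
      have h3 := hx.2
      unfold LFk LF at h3
      push Not at h3
      obtain ⟨T, hT, h4⟩ := h3
      rw [mem_biUnion]
      exact ⟨T, by rw [hTT, mem_filter]; exact ⟨mem_univ _, hT⟩, by
        rw [hbad, mem_filter]; exact ⟨hx.1, h4⟩⟩
    have hone : ∀ T ∈ TT, ((bad T).card : ℝ) * 2 ^ (k * 2 ^ k) ≤ η * Ω.card := by
      intro T hT
      rw [hTT, mem_filter] at hT
      have hcT : Fintype.card T ≤ k * 2 ^ k := by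
        rw [Fintype.card_coe]
        refine (card_le_univ _).trans (le_of_eq ?_)
        rw [Fintype.card_prod, Fintype.card_fin, Fintype.card_finset, Fintype.card_fin]
      have h3 := lemC h hΩ (I := T) (by omega)
        (fun t => (frm (t : Fin k × Finset (Fin k)) :
          (Fin k → ZMod N × ZMod N) →+ ZMod N))
        (fun t t' htt => frm_ind hkN t t' (hT.2 t t.2) (hT.2 t' t'.2)
          (fun h => htt (Subtype.ext h)))
        (fun t => frm_ne hk hkN t)
      have h4 : ∀ x, av (fun y : Fin k → ZMod N × ZMod N => ∏ t : T, ν x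
          (frm (t : Fin k × Finset (Fin k)) y)) =
          av (fun y : Fin k → ZMod N × ZMod N =>
            ∏ t ∈ T, ν x (Lf t.1 (sl t.2 y))) := by
        intro x
        congr 1
        funext y
        exact prod_coe_sort T (fun t => ν x (Lf t.1 (sl t.2 y)))
      simp_rw [h4] at h3
      have h5 : ((bad T).card : ℝ) * η ^ 2 ≤ 3 * E * Ω.card := by
        refine le_trans ?_ h3
        calc ((bad T).card : ℝ) * η ^ 2 = ∑ x ∈ bad T, η ^ 2 := by
              rw [sum_const, nsmul_eq_mul]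
          _ ≤ ∑ x ∈ bad T, (av (fun y : Fin k → ZMod N × ZMod N =>
            ∏ t ∈ T, ν x (Lf t.1 (sl t.2 y))) - 1) ^ 2 := by
              apply sum_le_sum
              intro x hx
              rw [hbad, mem_filter] at hx
              rw [← sq_abs (av _ - 1)]
              exact pow_le_pow_left₀ hη.le hx.2.le 2
          _ ≤ _ := sum_le_sum_of_subset_of_nonneg (filter_subset _ _)
              (fun x _ _ => sq_nonneg _)
      have h6 : ((bad T).card : ℝ) * 2 ^ (k * 2 ^ k) * η ^ 2 ≤ η * Ω.card * η ^ 2 := by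
        calc ((bad T).card : ℝ) * 2 ^ (k * 2 ^ k) * η ^ 2
            = 2 ^ (k * 2 ^ k) * (((bad T).card : ℝ) * η ^ 2) := by ring
          _ ≤ 2 ^ (k * 2 ^ k) * (3 * E * Ω.card) :=
              mul_le_mul_of_nonneg_left h5 (by positivity)
          _ = (2 ^ (k * 2 ^ k) * (3 * E)) * Ω.card := by ring
          _ ≤ η ^ 3 * Ω.card := mul_le_mul_of_nonneg_right h2 hX'.le
          _ = η * Ω.card * η ^ 2 := by ring
      exact le_of_mul_le_mul_right h6 (by positivity)
    have hTTc : TT.card ≤ 2 ^ (k * 2 ^ k) := by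
      refine (card_le_univ _).trans (le_of_eq ?_)
      rw [Fintype.card_finset, Fintype.card_prod, Fintype.card_fin, Fintype.card_finset,
        Fintype.card_fin]
    have h7 : ((Ω.filter (fun x => ¬ LFk k N (ν x) η)).card : ℝ) ≤
        ∑ T ∈ TT, ((bad T).card : ℝ) := by
      have := (card_le_card hsub).trans card_biUnion_le
      exact_mod_cast this
    have h8 : (∑ T ∈ TT, ((bad T).card : ℝ)) * 2 ^ (k * 2 ^ k) ≤
        η * Ω.card * 2 ^ (k * 2 ^ k) := by
      rw [sum_mul]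
      calc ∑ T ∈ TT, ((bad T).card : ℝ) * 2 ^ (k * 2 ^ k) ≤ ∑ T ∈ TT, η * Ω.card :=
            sum_le_sum hone
        _ = TT.card * (η * Ω.card) := by rw [sum_const, nsmul_eq_mul]
        _ ≤ 2 ^ (k * 2 ^ k) * (η * Ω.card) := by
            apply mul_le_mul_of_nonneg_right _ (by positivity)
            exact_mod_cast hTTc
        _ = η * Ω.card * 2 ^ (k * 2 ^ k) := by ring
    exact h7.trans (le_of_mul_le_mul_right h8 (by positivity))

open Classical in
/-- a good member of the family -/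
theorem exists_good {k : ℕ} [NeZero N] {Ω : Finset α} {ν F : α → ZMod N → ℝ} {η δ : ℝ}
    (hΩ : Ω.Nonempty) (hF : ∀ x a, 0 ≤ F x a ∧ F x a ≤ ν x a)
    (h1 : ∑ x ∈ Ω, |av (ν x) - 1| ≤ η * Ω.card)
    (h2 : ((Ω.filter (fun x => ¬ LFk k N (ν x) η)).card : ℝ) ≤ η * Ω.card)
    (h3 : δ * Ω.card ≤ ∑ x ∈ Ω, av (F x)) (hη : 4 * η < δ) :
    ∃ x ∈ Ω, LFk k N (ν x) η ∧ δ / 2 ≤ av (F x) := by
  by_contra hcon
  push Not at hcon
  have hX' : (0 : ℝ) < Ω.card := by exact_mod_cast hΩ.card_pos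
  have h4 : ∀ x ∈ Ω, av (F x) ≤ δ / 2 +
      ((if ¬ LFk k N (ν x) η then 1 else 0) + |av (ν x) - 1|) := by
    intro x hx
    by_cases h5 : LFk k N (ν x) η
    · have h6 := hcon x hx h5
      rw [if_neg (not_not.2 h5)]
      have := abs_nonneg (av (ν x) - 1)
      linarith
    · rw [if_pos h5]
      have h6 : av (F x) ≤ av (ν x) := av_mono fun a => (hF x a).2
      have h7 := le_abs_self (av (ν x) - 1)
      have h8 : 0 ≤ δ := by
        by_contra hc
        have h9 : 0 ≤ η := by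
          by_contra hc'
          have h10 : ∑ x ∈ Ω, |av (ν x) - 1| < 0 :=
            lt_of_le_of_lt h1 (mul_neg_of_neg_of_pos (not_le.mp hc') hX')
          exact absurd (sum_nonneg fun x _ => abs_nonneg (av (ν x) - 1)) (not_le.mpr h10)
        linarith
      linarith
  have h5 := h3.trans (sum_le_sum h4)
  rw [sum_add_distrib, sum_add_distrib, sum_const, nsmul_eq_mul] at h5
  have h6 : ∑ x ∈ Ω, (if ¬ LFk k N (ν x) η then (1 : ℝ) else 0) =
      ((Ω.filter (fun x => ¬ LFk k N (ν x) η)).card : ℝ) := by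
    rw [card_filter]
    push_cast
    rfl
  rw [h6] at h5
  have h7 : δ * Ω.card ≤ Ω.card * (δ / 2) + (η * Ω.card + η * Ω.card) := by linarith
  have h8 : 4 * η * Ω.card < δ * Ω.card := mul_lt_mul_of_pos_right hη hX'
  nlinarith

/-- (TRANS) -/
theorem t_TRANS (hRS : S_RS) : S_TRANS := by
  classical
  intro k hk δ hδ
  obtain ⟨c, ηR, hc0, hηR, hRSk⟩ := hRS k hk (δ / 2) (by positivity)
  set η := min ηR (δ / 8) with hη
  have hη0 : 0 < η := lt_min hηR (by positivity)
  have hη1 : η ≤ ηR := min_le_left _ _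
  have hη2 : η ≤ δ / 8 := min_le_right _ _
  set E := min (η ^ 2 / 3) (η ^ 3 / (3 * 2 ^ (k * 2 ^ k))) with hE
  have hE0 : 0 < E := lt_min (by positivity) (by positivity)
  have hE1 : 3 * E ≤ η ^ 2 := by
    have := min_le_left (η ^ 2 / 3) (η ^ 3 / (3 * 2 ^ (k * 2 ^ k)))
    rw [← hE] at this
    linarith
  have hE2 : 2 ^ (k * 2 ^ k) * (3 * E) ≤ η ^ 3 := by
    have := min_le_right (η ^ 2 / 3) (η ^ 3 / (3 * 2 ^ (k * 2 ^ k)))
    rw [← hE, le_div_iff₀ (by positivity)] at this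
    linarith
  refine ⟨c, E, hc0, hE0, ?_⟩
  intro N _ hN hkN α Ω ν F hΩ hF hcor hδF
  have : Fact N.Prime := ⟨hN⟩
  obtain ⟨h1, h2⟩ := lfm hk hkN.le hcor hΩ le_rfl hη0 hE1 hE2
  obtain ⟨x, hx, hLF, hav⟩ := exists_good hΩ hF h1 h2 hδF (by linarith)
  refine ⟨x, hx, hRSk N hN hkN (ν x) (F x) (hF x) ?_ hav⟩
  intro T hT
  exact (hLF T hT).trans hη1

end Pool.Agent.Y239.LW
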